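import Mathlib

namespace Pool.Agent.Results.MP_e14bb7_co.Q1

open Finset MvPolynomial
open scoped Classical

variable {F V ι : Type} [Field F] [Fintype V] [DecidableEq ι]

lemma one_var (s : Finset ι) (w : ι → F) (hw : Set.InjOn w s) (k d : ℕ) (hs : s.card = k + 1)
    (hd : d ≤ k) : ∑ i ∈ s, w i ^ d / ∏ j ∈ s.erase i, (w i - w j) = if d = k then 1 else 0 := by
  have := Lagrange.coeff_eq_sum (P := Polynomial.X ^ d) hw (by
    rw [Polynomial.degree_X_pow, hs]; exact_mod_cast Nat.lt_succ_of_le hd)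
  simp only [Polynomial.eval_pow, Polynomial.eval_X, hs, Nat.add_sub_cancel,
    Polynomial.coeff_X_pow] at this
  rw [← this]; simp [eq_comm]

lemma formula (s : V → Finset ι) (w : ι → F) (hw : ∀ v, Set.InjOn w (s v)) (k : ℕ)
    (hs : ∀ v, (s v).card = k + 1) (P : MvPolynomial V F)
    (hP : P.totalDegree ≤ Fintype.card V * k) :
    ∑ a ∈ Fintype.piFinset s, eval (fun v => w (a v)) P /
      ∏ v, ∏ j ∈ (s v).erase (a v), (w (a v) - w j) =
      ∑ d ∈ P.support, if ∀ v, d v = k then coeff d P else 0 := by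
  simp only [eval_eq', sum_div]
  rw [sum_comm]
  refine sum_congr rfl fun d hd => ?_
  simp only [mul_div_assoc, ← prod_div_distrib]
  rw [← mul_sum, ← prod_univ_sum s fun v i => w i ^ d v / ∏ j ∈ (s v).erase i, (w i - w j)]
  split_ifs with h
  · rw [prod_eq_one, mul_one]
    intro v _
    rw [one_var _ w (hw v) k _ (hs v) (h v).le, if_pos (h v)]
  · have : ∃ v, d v < k := by
      by_contra h'
      push Not at h h'
      obtain ⟨v, hv⟩ := h
      have h1 := (le_totalDegree hd).trans hP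
      rw [Finsupp.sum_fintype _ _ fun _ => rfl] at h1
      have := sum_lt_sum (s := univ) (f := fun _ => k) (g := d) (fun v _ => h' v)
        ⟨v, mem_univ _, (h' v).lt_of_ne' hv⟩
      simp at this; omega
    obtain ⟨v, hv⟩ := this
    rw [prod_eq_zero (mem_univ v), mul_zero]
    rw [one_var _ w (hw v) k _ (hs v) hv.le, if_neg hv.ne]

theorem result (V : Type) [Fintype V] [Nonempty V] (G : SimpleGraph V) (k : ℕ) (hk : 2 ≤ k)
    (hm : 2 * G.edgeSet.ncard = (2 * k - 2) * Fintype.card V) (C : Type) (L : V → Finset C)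
    (hL : ∀ v, (L v).card = k) :
    ¬ ∃! c : V → C, (∀ v, c v ∈ L v) ∧ ∀ u v, G.Adj u v → c u ≠ c v := by
  rintro ⟨c, ⟨hc1, hc2⟩, hu⟩
  obtain ⟨p, hp, q, hq⟩ := Nat.exists_prime_and_dvd (n := k) (by omega)
  obtain ⟨k, rfl⟩ : ∃ j, k = j + 1 := ⟨k - 1, by omega⟩
  have := Fact.mk hp
  let F := RatFunc (ZMod p)
  have hinj := RatFunc.algebraMap_injective (ZMod p)
  have : Infinite F := Infinite.of_injective _ hinj
  let P : MvPolynomial V F := ∏ e ∈ G.edgeFinset, (X e.out.1 - X e.out.2)
  have hP : P.totalDegree ≤ Fintype.card V * k := by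
    refine (totalDegree_finsetProd _ _).trans ((sum_le_card_nsmul _ _ 1 fun e _ => ?_).trans ?_)
    · exact (totalDegree_sub _ _).trans (by simp)
    · rw [Set.ncard_eq_toFinset_card'] at hm
      change 2 * G.edgeFinset.card = _ at hm
      rw [show 2 * (k + 1) - 2 = 2 * k by omega] at hm
      simp only [smul_eq_mul]; nlinarith
  have ev : ∀ x : V → F, eval x P = ∏ e ∈ G.edgeFinset, (x e.out.1 - x e.out.2) := fun x => by
    simp [P]
  obtain ⟨w, -, hw⟩ := (univ.biUnion L).finite_toSet.exists_injOn_of_encard_le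
    (t := (Set.univ : Set F)) (by simp [Set.infinite_univ.encard_eq])
  have hw' : ∀ {u v x y}, x ∈ L u → y ∈ L v → w x = w y → x = y := fun hx hy =>
    hw (by simpa using ⟨_, hx⟩) (by simpa using ⟨_, hy⟩)
  have f1 := formula L w (fun v x hx y hy => hw' hx hy) k hL P hP
  rw [sum_eq_single c] at f1
  rotate_left
  · intro a ha hac
    rw [Fintype.mem_piFinset] at ha
    obtain ⟨u, v, h, e⟩ : ∃ u v, G.Adj u v ∧ a u = a v := by
      by_contra h; push Not at h; exact hac (hu a ⟨ha, h⟩)
    rw [ev, prod_eq_zero (i := s(u, v)) (by simpa using h), zero_div]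
    rcases Sym2.eq_iff.1 (show s(s(u, v).out.1, s(u, v).out.2) = s(u, v) from Quot.out_eq _)
      with h | h <;> simp [h.1, h.2, e]
  · intro h; exact absurd (Fintype.mem_piFinset.2 hc1) h
  have n1 : eval (fun v => w (c v)) P / ∏ v, ∏ j ∈ (L v).erase (c v), (w (c v) - w j) ≠ 0 := by
    refine div_ne_zero ?_ (prod_ne_zero_iff.2 fun v _ => prod_ne_zero_iff.2 fun j hj h => ?_)
    · rw [ev]
      refine prod_ne_zero_iff.2 fun e he h => hc2 _ _ ?_ (hw' (hc1 _) (hc1 _) (sub_eq_zero.1 h))
      rw [← SimpleGraph.mem_edgeSet]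
      simpa [show s(e.out.1, e.out.2) = e from Quot.out_eq e] using he
    · exact (mem_erase.1 hj).1 (hw' (hc1 _) (mem_erase.1 hj).2 (sub_eq_zero.1 h)).symm
  let z : ZMod p × Fin q → F := fun i =>
    algebraMap (Polynomial (ZMod p)) F (Polynomial.C i.1 + Polynomial.X ^ (i.2.1 + 1))
  have hz : Function.Injective z := by
    rintro ⟨i, j⟩ ⟨i', j'⟩ h
    have h := hinj h
    have h0 : i = i' := by simpa using congrArg (Polynomial.coeff · 0) h
    subst h0
    have := congrArg Polynomial.natDegree (add_left_cancel h)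
    simp at this
    simp [Fin.ext_iff, this]
  let τ : ZMod p × Fin q ≃ ZMod p × Fin q := (Equiv.addRight 1).prodCongr (Equiv.refl _)
  have hτ : ∀ i, z (τ i) = z i + 1 := fun i => by simp [z, τ]; ring
  have f2 := formula (fun _ : V => (univ : Finset (ZMod p × Fin q))) z (fun _ => hz.injOn) k
    (fun _ => by simp [hq]) P hP
  rw [← f1, Fintype.piFinset_univ] at f2
  set T : (V → ZMod p × Fin q) → F := fun a => eval (fun v => z (a v)) P /
    ∏ v, ∏ j ∈ univ.erase (a v), (z (a v) - z j) with hT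
  have hT' : ∀ a, T (fun v => τ (a v)) = T a := fun a => by
    simp only [hT, ev, hτ, add_sub_add_right_eq_sub]
    congr 1
    refine prod_congr rfl fun v _ => (prod_equiv τ (by simp) fun j _ => ?_).symm
    rw [hτ]; ring
  obtain ⟨v0⟩ := ‹Nonempty V›
  have := (Equiv.piCongrRight fun _ : V => τ).sum_comp fun a => T a * z (a v0)
  simp only [Equiv.piCongrRight_apply, Pi.map_apply, hτ] at this
  have h2 : ∀ a, T ((Equiv.piCongrRight fun _ : V => τ) a) = T a := hT'
  simp only [h2, mul_add, mul_one, sum_add_distrib, add_eq_left] at this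
  exact n1 (f2.symm.trans this)

end Pool.Agent.Results.MP_e14bb7_co.Q1
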